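import Pool.Agent.W95.EQ.Stm

/-! Project EQM, part LDCP: local degree at a pole. -/

open Polynomial Topology Filter MeasureTheory
open scoped ENNReal

namespace Pool.Agent.W479.EQ

open Pool.Agent.W95.BK Pool.Agent.W95.EQ

universe u

variable {K : Type u} [NontriviallyNormedField K] [IsUltrametricDist K] [IsAlgClosed K]

lemma Q_ne_zero (f : RMap K) : f.Q ≠ 0 := by
  intro h0
  have hc := f.cop
  rw [h0, isCoprime_zero_right] at hc
  have h1 := natDegree_eq_zero_of_isUnit hc
  have h2 := f.deg_eq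
  have h3 := f.pos
  rw [h1, h0, natDegree_zero] at h2
  simp at h2
  omega

/-- the count of a ball -/
lemma cnt_ball (hG : S_GLAM.{u}) (f : RMap K) (a : K) (r : ℝ) (b : K) :
    cnt f (ball a r) b = nIn (f.P - C b * f.Q) {w | ‖w - a‖ < r} := by
  classical
  unfold cnt nIn fib
  rw [Multiset.filter_add, Multiset.card_add]
  have h1 : Multiset.filter (fun w => w ∈ ball a r)
      (Multiset.replicate (f.d - (f.P - C b * f.Q).natDegree) (OnePoint.infty : P1B K)) = 0 := by
    rw [Multiset.filter_eq_nil]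
    intro x hx
    rw [Multiset.eq_of_mem_replicate hx]
    rintro ⟨y, hy, -⟩
    exact OnePoint.infty_ne_coe y hy
  rw [h1, Multiset.card_zero, add_zero, Multiset.filter_map, Multiset.card_map]
  congr 1
  refine Multiset.filter_congr fun z _ => ?_
  simp only [Function.comp]
  constructor
  · rintro ⟨y, hy, hy2⟩
    have : y = cl z := (OnePoint.coe_injective hy).symm
    rw [this, (hG K z a).1] at hy2
    exact hy2
  · intro hz
    refine ⟨cl z, rfl, ?_⟩
    rw [(hG K z a).1]
    exact hz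

/-- small discs are contained in a given neighbourhood -/
lemma small_ball (hG : S_GLAM.{u}) (hI : S_ISO.{u}) (hN : S_NB.{u}) (w : K) (U₀ : Set (P1B K))
    (hU : U₀ ∈ 𝓝 ((cl w : BA K) : P1B K)) : ∀ᶠ r in 𝓝[>] (0 : ℝ), ball w r ⊆ U₀ := by
  obtain ⟨A, B, hA, hB, hAB⟩ := (hN K).1 (cl w) U₀ hU
  have e1 : ∀ᶠ r in 𝓝[>] (0 : ℝ), ∀ p ∈ A, r < p.2 := by
    rw [Filter.eventually_all_finset]
    intro p hp
    have h0 : 0 < p.2 := by
      have := hA p hp
      rw [(hG K w p.1).1] at this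
      exact lt_of_le_of_lt (norm_nonneg _) this
    exact eventually_nhdsWithin_of_eventually_nhds (eventually_lt_nhds h0)
  have e2 : ∀ᶠ r in 𝓝[>] (0 : ℝ), ∀ p ∈ B, r < ‖w - p.1‖ := by
    rw [Filter.eventually_all_finset]
    intro p hp
    have h0 : 0 < ‖w - p.1‖ := by
      have := hB p hp
      rw [(hG K w p.1).1] at this
      exact lt_of_le_of_lt this.1 this.2
    exact eventually_nhdsWithin_of_eventually_nhds (eventually_lt_nhds h0)
  filter_upwards [e1, e2] with r h1 h2
  rintro x ⟨y, rfl, hy⟩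
  refine hAB y (fun p hp => ?_) (fun p hp => ?_)
  · refine lt_of_le_of_lt (hI K y p.1 w).1 ?_
    have h3 := hA p hp
    rw [(hG K w p.1).1] at h3
    rw [max_lt_iff]
    exact ⟨hy.trans (h1 p hp), by rw [norm_sub_rev]; exact h3⟩
  · have h3 := hB p hp
    rw [(hG K w p.1).1] at h3
    have h4 : lam y w < ‖p.1 - w‖ := by
      rw [norm_sub_rev]
      exact hy.trans (h2 p hp)
    rw [(hI K y p.1 w).2.2.1 h4, norm_sub_rev]
    exact h3.2

/-- small perturbations do not change the number of roots in an open disc -/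
lemma nIn_pert (hP : S_NPOL.{u}) (g k : K[X]) (w : K) (r : ℝ) (hg : g ≠ 0) (hr : 0 < r)
    (hk : ∀ i, ‖(taylor w k).coeff i‖ * r ^ i < gn w r g) :
    g - k ≠ 0 ∧ nIn (g - k) {z | ‖z - w‖ < r} = nIn g {z | ‖z - w‖ < r} := by
  obtain ⟨g0, g1, g2, g3, -⟩ := hP K g w r hg hr
  obtain ⟨m, hm⟩ : ∃ m, m = nIn g {z | ‖z - w‖ < r} := ⟨_, rfl⟩
  rw [← hm] at g2 g3 ⊢
  have hco : ∀ i, (taylor w (g - k)).coeff i = (taylor w g).coeff i - (taylor w k).coeff i := by
    intro i
    rw [map_sub, coeff_sub]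
  have hle : ∀ i, ‖(taylor w (g - k)).coeff i‖ * r ^ i ≤
      max (‖(taylor w g).coeff i‖ * r ^ i) (‖(taylor w k).coeff i‖ * r ^ i) := by
    intro i
    rw [hco, ← max_mul_of_nonneg _ _ (pow_nonneg hr.le i)]
    refine mul_le_mul_of_nonneg_right ?_ (pow_nonneg hr.le i)
    have h5 := IsUltrametricDist.norm_add_le_max ((taylor w g).coeff i) (-(taylor w k).coeff i)
    rw [norm_neg, ← sub_eq_add_neg] at h5
    exact h5
  have hmeq : ‖(taylor w (g - k)).coeff m‖ * r ^ m = gn w r g := by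
    refine le_antisymm ?_ ?_
    · refine (hle m).trans ?_
      rw [g2]
      exact max_le le_rfl (hk m).le
    · by_contra hlt
      push Not at hlt
      have h1 : ‖(taylor w g).coeff m‖ ≤
          max ‖(taylor w (g - k)).coeff m‖ ‖(taylor w k).coeff m‖ := by
        have : (taylor w g).coeff m = (taylor w (g - k)).coeff m + (taylor w k).coeff m := by
          rw [hco]; ring
        rw [this]
        exact IsUltrametricDist.norm_add_le_max _ _
      have h2 : ‖(taylor w g).coeff m‖ * r ^ m ≤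
          max (‖(taylor w (g - k)).coeff m‖ * r ^ m) (‖(taylor w k).coeff m‖ * r ^ m) := by
        rw [← max_mul_of_nonneg _ _ (pow_nonneg hr.le m)]
        exact mul_le_mul_of_nonneg_right h1 (pow_nonneg hr.le m)
      rw [g2] at h2
      exact absurd h2 (not_le.2 (max_lt hlt (hk m)))
  have hne : g - k ≠ 0 := by
    intro h0
    rw [h0] at hmeq
    simp at hmeq
    rw [← hmeq] at g0
    exact lt_irrefl _ g0
  refine ⟨hne, ?_⟩
  obtain ⟨k0, k1, k2, k3, -⟩ := hP K (g - k) w r hne hr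
  obtain ⟨m', hm'⟩ : ∃ m', m' = nIn (g - k) {z | ‖z - w‖ < r} := ⟨_, rfl⟩
  rw [← hm'] at k2 k3 ⊢
  have hGG : gn w r (g - k) = gn w r g := by
    refine le_antisymm ?_ ?_
    · rw [← k2]
      exact (hle m').trans (max_le (g1 m') (hk m').le)
    · rw [← hmeq]
      exact k1 m
  rcases lt_trichotomy m' m with hlt | heq | hgt
  · exfalso
    have h1 := g3 m' hlt
    have h2 := hle m'
    rw [k2, hGG] at h2
    exact absurd h2 (not_le.2 (max_lt h1 (hk m')))
  · exact heq
  · exfalso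
    have h1 := k3 m hgt
    rw [hmeq, hGG] at h1
    exact lt_irrefl _ h1

/-- the number of roots in a small disc is the multiplicity of the centre -/
lemma nIn_mult (g : K[X]) (w : K) (hg : g ≠ 0) :
    ∀ᶠ r in 𝓝[>] (0 : ℝ), nIn g {z | ‖z - w‖ < r} = g.rootMultiplicity w := by
  classical
  have e1 : ∀ᶠ r in 𝓝[>] (0 : ℝ), ∀ z ∈ g.roots.toFinset, z ≠ w → r < ‖z - w‖ := by
    rw [Filter.eventually_all_finset]
    intro z _
    by_cases hz : z = w
    · exact Filter.Eventually.of_forall fun r h => absurd hz h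
    · have h0 : 0 < ‖z - w‖ := norm_pos_iff.2 (sub_ne_zero.2 hz)
      filter_upwards [eventually_nhdsWithin_of_eventually_nhds (eventually_lt_nhds h0)] with r hr _
      exact hr
  filter_upwards [e1, self_mem_nhdsWithin] with r hr hr0
  unfold nIn
  rw [← count_roots, Multiset.count_eq_card_filter_eq]
  congr 1
  refine Multiset.filter_congr fun z hz => ?_
  constructor
  · intro h
    by_contra hne
    have h1 := hr z (Multiset.mem_toFinset.2 hz) (fun h2 => hne h2.symm)
    exact absurd h (not_lt.2 h1.le)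
  · intro h
    rw [← h]
    show ‖w - w‖ < r
    rw [sub_self, norm_zero]
    exact hr0

theorem main : S_NPOL.{u} → S_NB.{u} → S_ACT.{u} → S_GLAM.{u} → S_ISO.{u} → S_LDCP.{u} := by
  intro hP hN hA hG hI K _ _ _ f w hw U₀ hU₀
  have hQ0 : f.Q ≠ 0 := Q_ne_zero f
  have hP0 : f.P ≠ 0 := by
    intro h0
    obtain ⟨a, b, hab⟩ := f.cop
    have := congrArg (eval w) hab
    rw [h0] at this
    simp [hw] at this
  obtain ⟨r, ⟨hr1, hr2⟩, hr0⟩ := ((((small_ball hG hI hN w U₀ hU₀).and
    (nIn_mult f.Q w hQ0)).and self_mem_nhdsWithin).exists)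
  have hr0' : 0 < r := hr0
  refine ⟨ball w r, ?_, hr1, ?_⟩
  · refine ((hN K).2.2.1 w r).mem_nhds ?_
    refine ⟨cl w, rfl, ?_⟩
    rw [(hG K w w).1, sub_self, norm_zero]
    exact hr0'
  · rw [(hA K f).2.2.1 w hw]
    obtain ⟨q0, q1, -⟩ := hP K f.Q w r hQ0 hr0'
    obtain ⟨p0, p1, -⟩ := hP K f.P w r hP0 hr0'
    obtain ⟨N, hNd⟩ : ∃ N, N = gn w r f.P / gn w r f.Q := ⟨_, rfl⟩
    have hN0 : 0 < N := by rw [hNd]; exact div_pos p0 q0
    have hev : ∀ᶠ b in toward (OnePoint.infty : P1B K), N < ‖b‖ := by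
      unfold toward
      rw [Filter.eventually_comap]
      have hop := (hN K).2.2.2 0 N
      have hmem : {x : P1B K | ∀ y : BA K, x = (y : P1B K) → N < lam y 0} ∈
          𝓝 (OnePoint.infty : P1B K) :=
        hop.mem_nhds (fun y hy => absurd hy (OnePoint.infty_ne_coe y))
      filter_upwards [hmem] with x hx b hb
      have := hx (cl b) hb.symm
      rw [(hG K b 0).1, sub_zero] at this
      exact this
    filter_upwards [hev] with b hb
    have hb0 : 0 < ‖b‖ := hN0.trans hb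
    have hbne : b ≠ 0 := norm_pos_iff.1 hb0
    rw [cnt_ball hG, ← hr2]
    have hfac : f.P - C b * f.Q = C (-b) * (f.Q - C b⁻¹ * f.P) := by
      rw [mul_sub, ← mul_assoc, ← C_mul]
      have : -b * b⁻¹ = -1 := by field_simp
      rw [this]
      simp only [C_neg, C_1]
      ring
    have hk : ∀ i, ‖(taylor w (C b⁻¹ * f.P)).coeff i‖ * r ^ i < gn w r f.Q := by
      intro i
      rw [taylor_mul, taylor_C, coeff_C_mul, norm_mul, norm_inv, mul_assoc]
      have h1 : ‖b‖⁻¹ * (‖(taylor w f.P).coeff i‖ * r ^ i) ≤ ‖b‖⁻¹ * gn w r f.P :=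
        mul_le_mul_of_nonneg_left (p1 i) (by positivity)
      refine lt_of_le_of_lt h1 ?_
      rw [hNd, div_lt_iff₀ q0] at hb
      rw [inv_mul_lt_iff₀ hb0]
      exact hb
    obtain ⟨-, h2⟩ := nIn_pert hP f.Q (C b⁻¹ * f.P) w r hQ0 hr0' hk
    rw [← h2]
    unfold nIn
    rw [hfac, roots_C_mul _ (neg_ne_zero.2 hbne)]

end Pool.Agent.W479.EQ
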